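import Pool.Agent.Helper52.SG.Goals

/-!
# LGG: a criterion for the hypothesis `LG`
-/

set_option autoImplicit false

open Subgroup Pool.H83Shunkov Pool.Agent.Helper52.SG

namespace Pool.Agent.Helper64.SG.LGG

/-- a group generated by finitely many pair-finite elements which is `Good` is finite -/
theorem finite_of_good {Q : Type} [Group Q] (h : PG Q) (hQ : Good Q) : Finite Q := by
  obtain ⟨S, hS, hp⟩ := h
  have hX : X Q := hQ.X
  have hfin : ((closure (S : Set Q) : Subgroup Q) : Set Q).Finite :=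
    isLocFin_lfRad (G := Q) S (fun s hs => hX s (hp s hs))
  rw [hS] at hfin
  exact Set.finite_univ_iff.1 (by simpa using hfin)

/-- images of `PG` groups -/
theorem PG.map {K Q : Type} [Group K] [Group Q] (h : PG K) (f : K →* Q)
    (hf : Function.Surjective f) : PG Q := by
  classical
  obtain ⟨S, hS, hp⟩ := h
  refine ⟨S.image f, ?_, ?_⟩
  · rw [Finset.coe_image, ← MonoidHom.map_closure, hS]
    exact Subgroup.map_top_of_surjective f hf
  · intro s hs
    obtain ⟨x, hx, rfl⟩ := Finset.mem_image.1 hs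
    exact (hp x hx).map f hf

theorem t : S_LGG := by
  intro G _ hG K hPG hinf
  have hfg : K.FG := by
    obtain ⟨S, hS, _⟩ := hPG
    have : Group.FG K := ⟨⟨S, hS⟩⟩
    exact (Group.fg_iff_subgroup_fg K).1 this
  obtain ⟨R, hR, hQ, hsep⟩ := hG K hfg hinf
  refine ⟨R, hR, hQ, fun x hx => ?_⟩
  obtain ⟨M, hM, hRM, hxM, hgood⟩ := hsep x hx
  have hfin : Finite (K ⧸ M) :=
    finite_of_good (PG.map hPG (QuotientGroup.mk' M) (QuotientGroup.mk'_surjective M)) hgood
  exact ⟨M, hM, Subgroup.finiteIndex_of_finite_quotient, hRM, hxM⟩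

end Pool.Agent.Helper64.SG.LGG
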